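import Pool.Agent.KS6_55.AX.Unc

/-!
# Approximation by algebraic numbers up to a constant factor: continuum many numbers everywhere

For all `n ≥ 2`, `0 < c₁ < c₂` and `τ > 1` the numbers `ξ` of the question are everywhere in `[0, 1]`,
and there are continuum many of them in every subinterval. The key lemma of the library (the measure
of the numbers close to one algebraic number and not too close to all others) is used for a
diagonal construction, which avoids any given sequence of numbers; the set which is constructed is a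
Borel set, so it has the cardinality of the continuum.
-/

set_option autoImplicit false

open Polynomial Set

namespace Pool.Agent.Results.MP_a85dd6_nt.ContinuumMany

/-- The real algebraic numbers `α` of degree exactly `n` with `|ξ - α| < c H(α) ^ (-(n + 1) τ)`. Here
`P` is the primitive integer polynomial of degree `n` with the root `α`, and `H(α)` is the maximum of
the absolute values of its coefficients. -/
def approx (n : ℕ) (τ c ξ : ℝ) : Set ℝ :=
  {α : ℝ | (minpoly ℚ α).natDegree = n ∧ ∃ P : ℤ[X], P.IsPrimitive ∧ P.natDegree = n ∧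
    aeval α P = 0 ∧ |ξ - α| < c * ((((Finset.range (n + 1)).sup
      (fun i => (P.coeff i).natAbs) : ℕ) : ℝ) ^ (-((n + 1 : ℝ) * τ)))}

/-- For every `n ≥ 2`, `0 < c₁ < c₂`, `τ > 1` and every subinterval `(a, b)` of `[0, 1]` the set of the
`ξ` in `(a, b)` with infinitely many real algebraic `α` of degree `n` with
`|ξ - α| < c₂ H(α) ^ (-(n + 1) τ)`, but only finitely many with `|ξ - α| < c₁ H(α) ^ (-(n + 1) τ)`, has
the cardinality of the continuum. -/
theorem result (n : ℕ) (hn : 2 ≤ n) (c₁ c₂ τ : ℝ) (hc₁ : 0 < c₁) (hc : c₁ < c₂) (hτ : 1 < τ)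
    (a b : ℝ) (ha : 0 ≤ a) (hab : a < b) (hb : b ≤ 1) :
    Cardinal.mk {ξ : ℝ | ξ ∈ Ioo a b ∧ (approx n τ c₂ ξ).Infinite ∧ (approx n τ c₁ ξ).Finite} =
      Cardinal.continuum := by
  have hs : (n : ℝ) + 1 < (n + 1 : ℝ) * τ := by
    have : (0 : ℝ) ≤ n := Nat.cast_nonneg n
    nlinarith
  have h := Pool.Agent.KS6_55.AX.main hn hs hc₁ hc ha hab hb
  simp only [Pool.Agent.H680R3.EX.set_eq] at h
  exact h

end Pool.Agent.Results.MP_a85dd6_nt.ContinuumMany
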